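import Mathlib
import Pool.Agent.H66.PB2.Main

set_option autoImplicit false

namespace Pool.Agent.Results.MP_e5b7a3_co.LowerBound

/-- There is `c > 0` such that for all large `n` the least size `f(n)` of a finite family of
`n`-sets without property B exceeds `c √n 2^n / ln ln n`. -/
theorem result :
    ∃ c : ℝ, 0 < c ∧ ∃ n₀ : ℕ, ∀ n : ℕ, n₀ ≤ n →
      c * Real.sqrt (n : ℝ) / Real.log (Real.log (n : ℝ)) * (2 : ℝ) ^ n <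
        ((sInf {k : ℕ | ∃ F : Finset (Finset ℕ), F.card = k ∧ (∀ A ∈ F, A.card = n) ∧
          ¬ ∃ S : Set ℕ, ∀ A ∈ F, (∃ x ∈ A, x ∈ S) ∧ (∃ x ∈ A, x ∉ S)} : ℕ) : ℝ) := by
  classical
  obtain ⟨c, hc, n₁, h₁⟩ := PropB2.main
  refine ⟨c, hc, max n₁ 1, fun n hn => ?_⟩
  have hn1 : n₁ ≤ n := (le_max_left _ _).trans hn
  have hn2 : 1 ≤ n := (le_max_right _ _).trans hn
  obtain ⟨H0, hH0, -, hHB0⟩ := PropB2.fB_spec n hn2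
  -- translation between sets and Boolean colourings
  have htr : ∀ F : Finset (Finset ℕ),
      (∃ S : Set ℕ, ∀ A ∈ F, (∃ x ∈ A, x ∈ S) ∧ (∃ x ∈ A, x ∉ S)) ↔ PropB.HasPropertyB F := by
    intro F
    constructor
    · rintro ⟨S, hS⟩
      refine ⟨fun x => decide (x ∈ S), fun A hA => ?_⟩
      obtain ⟨⟨x, hx, hxS⟩, y, hy, hyS⟩ := hS A hA
      exact ⟨⟨x, hx, by simpa using hxS⟩, y, hy, by simpa using hyS⟩
    · rintro ⟨χ, hχ⟩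
      refine ⟨{x | χ x = true}, fun A hA => ?_⟩
      obtain ⟨⟨x, hx, hxS⟩, y, hy, hyS⟩ := hχ A hA
      exact ⟨⟨x, hx, hxS⟩, y, hy, by simp [hyS]⟩
  have hmem : sInf {k : ℕ | ∃ F : Finset (Finset ℕ), F.card = k ∧ (∀ A ∈ F, A.card = n) ∧
      ¬ ∃ S : Set ℕ, ∀ A ∈ F, (∃ x ∈ A, x ∈ S) ∧ (∃ x ∈ A, x ∉ S)} ∈
      {k : ℕ | ∃ F : Finset (Finset ℕ), F.card = k ∧ (∀ A ∈ F, A.card = n) ∧
      ¬ ∃ S : Set ℕ, ∀ A ∈ F, (∃ x ∈ A, x ∈ S) ∧ (∃ x ∈ A, x ∉ S)} :=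
    Nat.sInf_mem ⟨H0.card, H0, rfl, hH0, fun h => hHB0 ((htr H0).1 h)⟩
  obtain ⟨F, hFc, hF, hFB⟩ := hmem
  rw [← hFc]
  by_contra hcon
  push Not at hcon
  exact hFB ((htr F).2 (h₁ n hn1 ℕ F hF hcon))

end Pool.Agent.Results.MP_e5b7a3_co.LowerBound
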